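import Mathlib

namespace Pool.Agent.H21.AL

variable {G : Type*} [Group G]

theorem comm_of_sq {b g : G} (hodd : Odd (orderOf b)) (h : Commute (b ^ 2) g) : Commute b g := by
  obtain ⟨k, hk⟩ := hodd
  have h1 : b = (b ^ 2) ^ (k + 1) := by
    rw [← pow_mul, show 2 * (k + 1) = orderOf b + 1 by omega, pow_succ, pow_orderOf_eq_one, one_mul]
  rw [h1]
  exact h.pow_left _

/-- Polarisation. -/
theorem pol {P Q R S : G} (hPR : Commute P R) (hQS : Commute Q S) (hPQ : Commute P Q)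
    (h : Commute (P * Q) (R * S)) :
    R⁻¹ * Q * R * Q⁻¹ = S * P * S⁻¹ * P⁻¹ := by
  have h1 : P * Q * (R * S) = R * S * (P * Q) := h
  have h2 : Q * R * P * S = R * S * (P * Q) := by
    rw [← h1]
    calc Q * R * P * S = Q * (R * P) * S := by group
      _ = Q * (P * R) * S := by rw [hPR.eq]
      _ = Q * P * (R * S) := by group
      _ = P * Q * (R * S) := by rw [hPQ.eq]
  have h3 : R⁻¹ * Q * R * (P * S) = S * P * Q := by
    calc R⁻¹ * Q * R * (P * S) = R⁻¹ * (Q * R * P * S) := by group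
      _ = R⁻¹ * (R * S * (P * Q)) := by rw [h2]
      _ = S * P * Q := by group
  have h4 : R⁻¹ * Q * R = S * P * S⁻¹ * P⁻¹ * Q := by
    have e1 : R⁻¹ * Q * R = S * P * Q * (P * S)⁻¹ := by rw [← h3]; group
    rw [e1, mul_inv_rev]
    have e2 : Q * S⁻¹ = S⁻¹ * Q := (hQS.inv_right).eq
    have e3 : Q * P⁻¹ = P⁻¹ * Q := (hPQ.symm.inv_right).eq
    calc S * P * Q * (S⁻¹ * P⁻¹) = S * P * (Q * S⁻¹) * P⁻¹ := by group
      _ = S * P * (S⁻¹ * Q) * P⁻¹ := by rw [e2]
      _ = S * P * S⁻¹ * (Q * P⁻¹) := by group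
      _ = S * P * S⁻¹ * (P⁻¹ * Q) := by rw [e3]
      _ = S * P * S⁻¹ * P⁻¹ * Q := by group
  rw [h4]; group

/-- From the two polarised relations the commutator is central. -/
theorem central_of_two {Q R : G} (hodd : Odd (orderOf R))
    (E1 : R⁻¹ * Q * R * Q⁻¹ = R * Q⁻¹ * R⁻¹ * Q)
    (E2 : R * Q * R⁻¹ * Q⁻¹ = R⁻¹ * Q⁻¹ * R * Q) :
    Commute (Q * R * Q⁻¹ * R⁻¹) R ∧ Commute (Q * R * Q⁻¹ * R⁻¹) Q := by
  have hT1 : Commute (Q * R * Q⁻¹ * R⁻¹) (Q * R⁻¹) := by
    change Q * R * Q⁻¹ * R⁻¹ * (Q * R⁻¹) = Q * R⁻¹ * (Q * R * Q⁻¹ * R⁻¹)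
    calc Q * R * Q⁻¹ * R⁻¹ * (Q * R⁻¹) = Q * (R * Q⁻¹ * R⁻¹ * Q) * R⁻¹ := by group
      _ = Q * (R⁻¹ * Q * R * Q⁻¹) * R⁻¹ := by rw [E1]
      _ = Q * R⁻¹ * (Q * R * Q⁻¹ * R⁻¹) := by group
  have hc : Q * R * (R * Q) = R * Q * (Q * R) := by
    calc Q * R * (R * Q) = Q * R * (R * Q * R⁻¹ * Q⁻¹) * (Q * R) := by group
      _ = Q * R * (R⁻¹ * Q⁻¹ * R * Q) * (Q * R) := by rw [E2]
      _ = R * Q * (Q * R) := by group
  have hT2 : Commute (Q * R * Q⁻¹ * R⁻¹) (R * Q) := by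
    change Q * R * Q⁻¹ * R⁻¹ * (R * Q) = R * Q * (Q * R * Q⁻¹ * R⁻¹)
    calc Q * R * Q⁻¹ * R⁻¹ * (R * Q) = Q * R := by group
      _ = (Q * R * (R * Q)) * (Q⁻¹ * R⁻¹) := by group
      _ = (R * Q * (Q * R)) * (Q⁻¹ * R⁻¹) := by rw [hc]
      _ = R * Q * (Q * R * Q⁻¹ * R⁻¹) := by group
  have hT3 : Commute (Q * R * Q⁻¹ * R⁻¹) (Q * R) := by
    have e : Q * R = (Q * R * Q⁻¹ * R⁻¹) * (R * Q) := by group
    have h := (Commute.refl (Q * R * Q⁻¹ * R⁻¹)).mul_right hT2
    rwa [← e] at h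
  have hT4 : Commute (Q * R * Q⁻¹ * R⁻¹) (R ^ 2) := by
    have h := hT1.inv_right.mul_right hT3
    have e : (Q * R⁻¹)⁻¹ * (Q * R) = R ^ 2 := by rw [pow_two]; group
    rwa [e] at h
  have hT5 : Commute (Q * R * Q⁻¹ * R⁻¹) R := (comm_of_sq hodd hT4.symm).symm
  refine ⟨hT5, ?_⟩
  have h := hT1.mul_right hT5
  have e : Q * R⁻¹ * R = Q := by group
  rwa [e] at h

/-- A group of class at most two generated by two elements of order `p`. -/
theorem isPGroup_pair {p : ℕ} {Q R : G} (hQ : Q ^ p = 1) (hR : R ^ p = 1)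
    (h1 : Commute (Q * R * Q⁻¹ * R⁻¹) R) (h2 : Commute (Q * R * Q⁻¹ * R⁻¹) Q) :
    IsPGroup p (Subgroup.closure ({Q, R} : Set G)) := by
  set T := Q * R * Q⁻¹ * R⁻¹ with hT
  have hQR : Q * R * Q⁻¹ = T * R := by rw [hT]; group
  have hTp : T ^ p = 1 := by
    have e1 : (Q * R * Q⁻¹) ^ p = 1 := by
      rw [conj_pow, hR]; group
    rw [hQR, h1.mul_pow, hR, mul_one] at e1
    exact e1
  have pz : ∀ g : G, g ^ p = 1 → IsPGroup p (Subgroup.zpowers g) := by
    intro g hg x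
    refine ⟨1, ?_⟩
    obtain ⟨k, hk⟩ := Subgroup.mem_zpowers_iff.1 x.2
    apply Subtype.ext
    rw [Subgroup.coe_pow, ← hk, pow_one, ← zpow_natCast, ← zpow_mul, mul_comm, zpow_mul,
      zpow_natCast, hg, one_zpow, Subgroup.coe_one]
  have hn1 : Subgroup.zpowers R ≤ Subgroup.normalizer (Subgroup.zpowers T : Set G) := by
    rw [Subgroup.zpowers_le]
    rw [Subgroup.mem_normalizer_iff]
    intro g
    constructor
    · intro hg
      obtain ⟨k, rfl⟩ := Subgroup.mem_zpowers_iff.1 hg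
      have : R * T ^ k * R⁻¹ = T ^ k := by rw [(h1.symm.zpow_right k).eq]; group
      rw [this]; exact Subgroup.zpow_mem _ (Subgroup.mem_zpowers T) k
    · intro hg
      obtain ⟨k, hk⟩ := Subgroup.mem_zpowers_iff.1 hg
      have : g = T ^ k := by
        have e : g = R⁻¹ * T ^ k * R := by rw [hk]; group
        rw [e, ((h1.symm.inv_left).zpow_right k).eq]; group
      rw [this]; exact Subgroup.zpow_mem _ (Subgroup.mem_zpowers T) k
  have hp1 : IsPGroup p (Subgroup.zpowers R ⊔ Subgroup.zpowers T : Subgroup G) :=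
    IsPGroup.to_sup_of_normal_right' (pz R hR) (pz T hTp) hn1
  have hmR : R ∈ (Subgroup.zpowers R ⊔ Subgroup.zpowers T : Subgroup G) :=
    Subgroup.mem_sup_left (Subgroup.mem_zpowers R)
  have hmT : T ∈ (Subgroup.zpowers R ⊔ Subgroup.zpowers T : Subgroup G) :=
    Subgroup.mem_sup_right (Subgroup.mem_zpowers T)
  have hclo : (Subgroup.zpowers R ⊔ Subgroup.zpowers T : Subgroup G)
      = Subgroup.closure ({R, T} : Set G) := by
    rw [Subgroup.zpowers_eq_closure, Subgroup.zpowers_eq_closure, ← Subgroup.closure_union]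
    rfl
  have hconj : ∀ g ∈ (Subgroup.zpowers R ⊔ Subgroup.zpowers T : Subgroup G),
      Q * g * Q⁻¹ ∈ (Subgroup.zpowers R ⊔ Subgroup.zpowers T : Subgroup G) := by
    intro g hg
    rw [hclo] at hg
    induction hg using Subgroup.closure_induction with
    | mem x hx =>
      rcases hx with rfl | hx
      · rw [hQR]; exact mul_mem hmT hmR
      · rw [Set.mem_singleton_iff] at hx
        subst hx
        have : Q * T * Q⁻¹ = T := by rw [h2.symm.eq]; group
        rw [this]; exact hmT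
    | one => rw [mul_one, mul_inv_cancel]; exact one_mem _
    | mul x y _ _ hx hy =>
      have : Q * (x * y) * Q⁻¹ = (Q * x * Q⁻¹) * (Q * y * Q⁻¹) := by group
      rw [this]; exact mul_mem hx hy
    | inv x _ hx =>
      have : Q * x⁻¹ * Q⁻¹ = (Q * x * Q⁻¹)⁻¹ := by group
      rw [this]; exact inv_mem hx
  have hconj' : ∀ g ∈ (Subgroup.zpowers R ⊔ Subgroup.zpowers T : Subgroup G),
      Q⁻¹ * g * Q ∈ (Subgroup.zpowers R ⊔ Subgroup.zpowers T : Subgroup G) := by
    intro g hg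
    rw [hclo] at hg
    induction hg using Subgroup.closure_induction with
    | mem x hx =>
      rcases hx with rfl | hx
      · have e : Q⁻¹ * x * Q = T⁻¹ * x := by
          have e1 : T * (Q⁻¹ * x * Q) = Q⁻¹ * (T * x) * Q := by
            calc T * (Q⁻¹ * x * Q) = (T * Q⁻¹) * x * Q := by group
              _ = (Q⁻¹ * T) * x * Q := by rw [(h2.inv_right).eq]
              _ = Q⁻¹ * (T * x) * Q := by group
          rw [← hQR] at e1
          have e2 : Q⁻¹ * (Q * x * Q⁻¹) * Q = x := by group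
          rw [e2] at e1
          calc Q⁻¹ * x * Q = T⁻¹ * (T * (Q⁻¹ * x * Q)) := by group
            _ = T⁻¹ * x := by rw [e1]
        rw [e]; exact mul_mem (inv_mem hmT) hmR
      · rw [Set.mem_singleton_iff] at hx
        subst hx
        have : Q⁻¹ * T * Q = T := by rw [(h2.symm.inv_left).eq]; group
        rw [this]; exact hmT
    | one => rw [mul_one, inv_mul_cancel]; exact one_mem _
    | mul x y _ _ hx hy =>
      have : Q⁻¹ * (x * y) * Q = (Q⁻¹ * x * Q) * (Q⁻¹ * y * Q) := by group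
      rw [this]; exact mul_mem hx hy
    | inv x _ hx =>
      have : Q⁻¹ * x⁻¹ * Q = (Q⁻¹ * x * Q)⁻¹ := by group
      rw [this]; exact inv_mem hx
  have hn2 : Subgroup.zpowers Q ≤ Subgroup.normalizer
      ((Subgroup.zpowers R ⊔ Subgroup.zpowers T : Subgroup G) : Set G) := by
    rw [Subgroup.zpowers_le, Subgroup.mem_normalizer_iff]
    intro g
    constructor
    · intro hg; exact hconj g hg
    · intro hg
      have := hconj' _ hg
      have e : Q⁻¹ * (Q * g * Q⁻¹) * Q = g := by group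
      rwa [e] at this
  have hp2 : IsPGroup p (Subgroup.zpowers Q ⊔ (Subgroup.zpowers R ⊔ Subgroup.zpowers T) :
      Subgroup G) :=
    IsPGroup.to_sup_of_normal_right' (pz Q hQ) hp1 hn2
  refine hp2.to_le ?_
  rw [Subgroup.closure_le]
  rintro x (rfl | hx)
  · exact Subgroup.mem_sup_left (Subgroup.mem_zpowers x)
  · rw [Set.mem_singleton_iff] at hx
    subst hx
    exact Subgroup.mem_sup_right hmR

end Pool.Agent.H21.AL
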