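import Pool.Agent.H21.AL.Pair

namespace Pool.Agent.H21.AL

variable {H : Type*} [Group H] {z lam : H}

/-- `(Rel)`: `lam^-1 (h lam h^-1)` commutes with `z (h z h^-1)`. -/
def Rel (z lam : H) : Prop := ∀ h : H, Commute (lam⁻¹ * (h * lam * h⁻¹)) (z * (h * z * h⁻¹))

theorem comm_conj {a b : H} (g : H) (h : Commute a b) :
    Commute (g * a * g⁻¹) (g * b * g⁻¹) := by
  change g * a * g⁻¹ * (g * b * g⁻¹) = g * b * g⁻¹ * (g * a * g⁻¹)
  calc g * a * g⁻¹ * (g * b * g⁻¹) = g * (a * b) * g⁻¹ := by group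
    _ = g * (b * a) * g⁻¹ := by rw [h.eq]
    _ = g * b * g⁻¹ * (g * a * g⁻¹) := by group

theorem comm_lam (hrel : Rel z lam) {b : H} (hb : z * b * z = b⁻¹) (hz : z * z = 1)
    (hodd : Odd (orderOf b)) : Commute b (lam * b * lam⁻¹) := by
  have h := hrel b
  have e1 : z * (b * z * b⁻¹) = (b ^ 2)⁻¹ := by
    have : z * (b * z * b⁻¹) = (z * b * z) * b⁻¹ := by group
    rw [this, hb]; group
  rw [e1] at h
  have h2 : Commute (b ^ 2) (lam⁻¹ * (b * lam * b⁻¹)) := Commute.inv_left_iff.1 h.symm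
  have h3 : Commute b (lam⁻¹ * (b * lam * b⁻¹)) := comm_of_sq hodd h2
  have h4 : Commute b (lam⁻¹ * b * lam) := by
    have h5 := h3.mul_right (Commute.refl b)
    have e : lam⁻¹ * (b * lam * b⁻¹) * b = lam⁻¹ * b * lam := by group
    rwa [e] at h5
  have h6 : lam * (b * (lam⁻¹ * b * lam)) * lam⁻¹ = lam * (lam⁻¹ * b * lam * b) * lam⁻¹ := by
    rw [h4.eq]
  change b * (lam * b * lam⁻¹) = lam * b * lam⁻¹ * b
  calc b * (lam * b * lam⁻¹) = lam * (lam⁻¹ * b * lam * b) * lam⁻¹ := by group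
    _ = lam * (b * (lam⁻¹ * b * lam)) * lam⁻¹ := h6.symm
    _ = lam * b * lam⁻¹ * b := by group

theorem odd_conj {b : H} (g : H) (hodd : Odd (orderOf b)) : Odd (orderOf (g * b * g⁻¹)) := by
  have : orderOf (g * b * g⁻¹) = orderOf b := by
    have := orderOf_injective (MulAut.conj g).toMonoidHom (MulAut.conj g).injective b
    simpa using this
  rwa [this]

/-- the shifted relation: for `b` inverted by `z` and commuting with `lam b lam^-1`. -/
theorem shift (hrel : Rel z lam) {b : H} (hb : z * b * z = b⁻¹) (hz : z * z = 1)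
    (hc : Commute b (lam * b * lam⁻¹)) (h : H) (j : ℕ) :
    Commute (lam⁻¹ * (lam * b * lam⁻¹ * b⁻¹) ^ j * (h * lam * h⁻¹))
      (b ^ (2 * j) * (z * (h * z * h⁻¹))) := by
  have h1 := hrel (b⁻¹ ^ j * h)
  have hzb : b ^ j * z = z * b⁻¹ ^ j := by
    have e : (z * b * z) ^ j = z * b ^ j * z := by
      have hz' : z⁻¹ = z := by rw [inv_eq_iff_mul_eq_one, hz]
      have := conj_pow (i := j) (a := z) (b := b)
      rw [hz'] at this
      exact this
    rw [hb] at e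
    calc b ^ j * z = z * z * b ^ j * z := by rw [hz, one_mul]
      _ = z * (z * b ^ j * z) := by group
      _ = z * b⁻¹ ^ j := by rw [← e]
  have h2 : Commute (b ^ j * (lam⁻¹ * ((b⁻¹ ^ j * h) * lam * (b⁻¹ ^ j * h)⁻¹)) * (b ^ j)⁻¹)
      (b ^ j * (z * ((b⁻¹ ^ j * h) * z * (b⁻¹ ^ j * h)⁻¹)) * (b ^ j)⁻¹) :=
    comm_conj (b ^ j) h1
  have e1 : b ^ j * (lam⁻¹ * ((b⁻¹ ^ j * h) * lam * (b⁻¹ ^ j * h)⁻¹)) * (b ^ j)⁻¹
      = lam⁻¹ * (lam * b * lam⁻¹ * b⁻¹) ^ j * (h * lam * h⁻¹) := by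
    have e2 : (lam * b * lam⁻¹ * b⁻¹) ^ j = lam * b ^ j * lam⁻¹ * b⁻¹ ^ j := by
      rw [(hc.symm.inv_right).mul_pow, conj_pow]
    rw [e2]
    rw [inv_pow]
    group
  have e3 : b ^ j * (z * ((b⁻¹ ^ j * h) * z * (b⁻¹ ^ j * h)⁻¹)) * (b ^ j)⁻¹
      = b ^ (2 * j) * (z * (h * z * h⁻¹)) := by
    have e4 : b ^ j * (z * ((b⁻¹ ^ j * h) * z * (b⁻¹ ^ j * h)⁻¹)) * (b ^ j)⁻¹
        = b ^ j * (z * b⁻¹ ^ j) * (h * z * h⁻¹) := by
      rw [inv_pow]; group
    rw [e4, ← hzb, two_mul, pow_add]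
    group
  rw [e1, e3] at h2
  exact h2

/-- (B): `h z h^-1` conjugates `lam b lam^-1 b^-1` into the centraliser of `lam b lam^-1 b`. -/
theorem relB0 (hrel : Rel z lam) {b : H} (hb : z * b * z = b⁻¹) (hz : z * z = 1)
    (hodd : Odd (orderOf b)) (h : H) :
    Commute ((z * (h * z * h⁻¹)) * (b * (lam⁻¹ * b * lam)⁻¹) * (z * (h * z * h⁻¹))⁻¹)
      (b⁻¹ * (lam⁻¹ * b * lam)⁻¹) := by
  have hc := comm_lam hrel hb hz hodd
  -- b commutes with lam^-1 b lam
  have hc' : Commute b (lam⁻¹ * b * lam) := by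
    have h3 := hc.map (MulAut.conj lam⁻¹).toMonoidHom
    have e1 : (MulAut.conj lam⁻¹).toMonoidHom b = lam⁻¹ * b * lam := by simp
    have e2 : (MulAut.conj lam⁻¹).toMonoidHom (lam * b * lam⁻¹) = b := by simp [mul_assoc]
    rw [e1, e2] at h3
    exact h3.symm
  set s := z * (h * z * h⁻¹) with hs
  set c := lam⁻¹ * (h * lam * h⁻¹) with hcdef
  set β := b * (lam⁻¹ * b * lam)⁻¹ with hβ
  have hcs : Commute c s := hrel h
  have key : ∀ j : ℕ, β ^ j * (c * b * c⁻¹) ^ (2 * j) = b ^ (2 * j) * (s * β * s⁻¹) ^ j := by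
    intro j
    have h1 := shift hrel hb hz hc h j
    have e1 : lam⁻¹ * (lam * b * lam⁻¹ * b⁻¹) ^ j * (h * lam * h⁻¹) = β ^ j * c := by
      have : lam⁻¹ * (lam * b * lam⁻¹ * b⁻¹) ^ j * lam = β ^ j := by
        have h4 := conj_pow (i := j) (a := lam⁻¹) (b := lam * b * lam⁻¹ * b⁻¹)
        rw [inv_inv] at h4
        rw [← h4, hβ]
        congr 1
        group
      rw [← this, hcdef]; group
    rw [e1] at h1
    have h2 : β ^ j * c * (b ^ (2 * j) * s) = b ^ (2 * j) * s * (β ^ j * c) := h1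
    have h3 : β ^ j * (c * b ^ (2 * j) * c⁻¹) * (c * s)
        = b ^ (2 * j) * (s * β ^ j * s⁻¹) * (s * c) := by
      calc β ^ j * (c * b ^ (2 * j) * c⁻¹) * (c * s) = β ^ j * c * (b ^ (2 * j) * s) := by group
        _ = b ^ (2 * j) * s * (β ^ j * c) := h2
        _ = b ^ (2 * j) * (s * β ^ j * s⁻¹) * (s * c) := by group
    rw [hcs.eq] at h3
    have h4 := mul_right_cancel h3
    rw [conj_pow, conj_pow]
    exact h4
  have k1 := key 1
  have k2 := key 2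
  have hbβ : Commute b β := (Commute.refl b).mul_right hc'.inv_right
  set X := b⁻¹ * (lam⁻¹ * b * lam)⁻¹ with hX
  set Y := (c * b * c⁻¹) ^ 2 with hY
  have hXβ : X = (b ^ 2)⁻¹ * β := by rw [hX, hβ, pow_two]; group
  have f1 : s * β * s⁻¹ = X * Y := by
    rw [pow_one, pow_one, mul_one] at k1
    rw [hXβ, hY]
    calc s * β * s⁻¹ = (b ^ 2)⁻¹ * (b ^ 2 * (s * β * s⁻¹)) := by group
      _ = (b ^ 2)⁻¹ * (β * (c * b * c⁻¹) ^ 2) := by rw [← k1]
      _ = (b ^ 2)⁻¹ * β * (c * b * c⁻¹) ^ 2 := by group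
  have f2 : (s * β * s⁻¹) ^ 2 = X ^ 2 * Y ^ 2 := by
    have e : X ^ 2 = (b ^ 4)⁻¹ * β ^ 2 := by
      rw [hXβ, ((hbβ.pow_left 2).inv_left).mul_pow, inv_pow, ← pow_mul]
    rw [e, hY, ← pow_mul]
    calc (s * β * s⁻¹) ^ 2 = (b ^ 4)⁻¹ * (b ^ (2 * 2) * (s * β * s⁻¹) ^ 2) := by
          norm_num
      _ = (b ^ 4)⁻¹ * (β ^ 2 * (c * b * c⁻¹) ^ (2 * 2)) := by rw [← k2]
      _ = (b ^ 4)⁻¹ * β ^ 2 * (c * b * c⁻¹) ^ (2 * 2) := by group
  rw [f1] at f2
  have hXY : Commute X Y := by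
    have g1 : X * Y * (X * Y) = X * X * (Y * Y) := by
      rw [pow_two, pow_two, pow_two] at f2; exact f2
    have g2 : Y * X = X * Y := by
      have : X * (Y * X) * Y = X * (X * Y) * Y := by
        calc X * (Y * X) * Y = X * Y * (X * Y) := by group
          _ = X * X * (Y * Y) := g1
          _ = X * (X * Y) * Y := by group
      exact mul_left_cancel (mul_right_cancel this)
    exact g2.symm
  change Commute (s * β * s⁻¹) X
  rw [f1]
  exact (Commute.refl X).mul_left hXY.symm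

theorem relB (hrel : Rel z lam) (hzl : Commute z lam) {b : H} (hb : z * b * z = b⁻¹)
    (hz : z * z = 1) (hodd : Odd (orderOf b)) (h : H) :
    Commute ((h * z * h⁻¹) * (lam * b * lam⁻¹ * b⁻¹) * (h * z * h⁻¹))
      (lam * b * lam⁻¹ * b) := by
  have hz' : z⁻¹ = z := by rw [inv_eq_iff_mul_eq_one, hz]
  set b1 := lam * b * lam⁻¹ with hb1
  have hc := comm_lam hrel hb hz hodd
  have hzb1 : z * b1 * z = b1⁻¹ := by
    have e1 : z * lam = lam * z := hzl.eq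
    have e2 : lam⁻¹ * z = z * lam⁻¹ := (hzl.inv_right).eq.symm
    calc z * b1 * z = (z * lam) * b * (lam⁻¹ * z) := by rw [hb1]; group
      _ = lam * (z * b * z) * lam⁻¹ := by rw [e1, e2]; group
      _ = b1⁻¹ := by rw [hb, hb1]; group
  have hodd1 : Odd (orderOf b1) := odd_conj lam hodd
  have h1 := relB0 hrel hzb1 hz hodd1 h
  have e1 : lam⁻¹ * b1 * lam = b := by rw [hb1]; group
  rw [e1] at h1
  set w := h * z * h⁻¹ with hw
  have hww : w * w = 1 := by rw [hw]; calc h * z * h⁻¹ * (h * z * h⁻¹) = h * (z * z) * h⁻¹ := by group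
    _ = 1 := by rw [hz]; group
  have hw' : w⁻¹ = w := by rw [inv_eq_iff_mul_eq_one, hww]
  -- conjugate by z
  have h2 := h1.map (MulAut.conj z).toMonoidHom
  have e2 : (MulAut.conj z).toMonoidHom (z * w * (b1 * b⁻¹) * (z * w)⁻¹)
      = w * (b1 * b⁻¹) * w := by
    rw [mul_inv_rev, hw', hz']
    simp only [MulEquiv.toMonoidHom_eq_coe, MonoidHom.coe_coe, MulAut.conj_apply, hz']
    calc z * (z * w * (b1 * b⁻¹) * (w * z)) * z = (z * z) * (w * (b1 * b⁻¹) * w) * (z * z) := by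
          group
      _ = w * (b1 * b⁻¹) * w := by rw [hz, one_mul, mul_one]
  have e3 : (MulAut.conj z).toMonoidHom (b1⁻¹ * b⁻¹) = b1 * b := by
    simp only [MulEquiv.toMonoidHom_eq_coe, MonoidHom.coe_coe, MulAut.conj_apply, hz']
    have g1 : z * b1⁻¹ * z = b1 := by
      have := congrArg (·⁻¹) hzb1
      simp only [mul_inv_rev, hz', inv_inv] at this
      rw [mul_assoc]; exact this
    have g2 : z * b⁻¹ * z = b := by
      have := congrArg (·⁻¹) hb
      simp only [mul_inv_rev, hz', inv_inv] at this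
      rw [mul_assoc]; exact this
    calc z * (b1⁻¹ * b⁻¹) * z = (z * b1⁻¹ * z) * (z * b⁻¹ * z) := by
          calc z * (b1⁻¹ * b⁻¹) * z = z * b1⁻¹ * (z * z) * b⁻¹ * z := by rw [hz]; group
            _ = (z * b1⁻¹ * z) * (z * b⁻¹ * z) := by group
      _ = b1 * b := by rw [g1, g2]
  rw [e2, e3] at h2
  have e4 : w * (lam * b * lam⁻¹ * b⁻¹) * w = w * (b1 * b⁻¹) * w := by rw [hb1]
  change Commute (w * (b1 * b⁻¹) * w) (b1 * b)
  exact h2

end Pool.Agent.H21.AL
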