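import Pool.Agent.H21.AL.Rel

namespace Pool.Agent.H21.AL

variable {H : Type*} [Group H] {z lam : H}

/-- The relation `(G)` of helper4 gives `Rel`. -/
theorem rel_of_G (hz : z * z = 1) (hzl : Commute z lam)
    (hG : ∀ h : H, lam * (h * z * h⁻¹) * lam⁻¹ * (h * z * h⁻¹)
      = z * (h * lam * h⁻¹) * z * (h * lam * h⁻¹)⁻¹) : Rel z lam := by
  intro h
  have hG' := hG h
  have hc : Commute (h * z * h⁻¹) (h * lam * h⁻¹) := comm_conj h hzl
  set w := h * z * h⁻¹ with hw
  set m := h * lam * h⁻¹ with hm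
  have hww : w * w = 1 := by
    rw [hw]
    calc h * z * h⁻¹ * (h * z * h⁻¹) = h * (z * z) * h⁻¹ := by group
      _ = 1 := by rw [hz]; group
  have e1 : lam * w * lam⁻¹ = z * (m * (z * w) * m⁻¹) := by
    calc lam * w * lam⁻¹ = lam * w * lam⁻¹ * (w * w) := by rw [hww, mul_one]
      _ = (lam * w * lam⁻¹ * w) * w := by group
      _ = z * m * z * m⁻¹ * w := by rw [hG']
      _ = z * m * z * (m⁻¹ * w) := by group
      _ = z * m * z * (w * m⁻¹) := by rw [(hc.symm.inv_left).eq]
      _ = z * (m * (z * w) * m⁻¹) := by group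
  have e2 : lam * (z * w) * lam⁻¹ = m * (z * w) * m⁻¹ := by
    calc lam * (z * w) * lam⁻¹ = (lam * z) * w * lam⁻¹ := by group
      _ = (z * lam) * w * lam⁻¹ := by rw [hzl.eq]
      _ = z * (lam * w * lam⁻¹) := by group
      _ = z * (z * (m * (z * w) * m⁻¹)) := by rw [e1]
      _ = (z * z) * (m * (z * w) * m⁻¹) := by group
      _ = m * (z * w) * m⁻¹ := by rw [hz, one_mul]
  change lam⁻¹ * m * (z * w) = z * w * (lam⁻¹ * m)
  calc lam⁻¹ * m * (z * w) = lam⁻¹ * (m * (z * w) * m⁻¹) * m := by group
    _ = lam⁻¹ * (lam * (z * w) * lam⁻¹) * m := by rw [e2]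
    _ = z * w * (lam⁻¹ * m) := by group

/-- the conjugates `lam^i b lam^-i` -/
def cj (lam b : H) (i : ℕ) : H := lam ^ i * b * (lam ^ i)⁻¹

theorem cj_zero (lam b : H) : cj lam b 0 = b := by simp [cj]

theorem cj_add (lam b : H) (i j : ℕ) : cj lam b (i + j) = lam ^ i * cj lam b j * (lam ^ i)⁻¹ := by
  simp only [cj, pow_add]; group

theorem cj_succ (lam b : H) (i : ℕ) : cj lam b (i + 1) = lam * cj lam b i * lam⁻¹ := by
  rw [add_comm, cj_add, pow_one]

theorem cj_inv (hzl : Commute z lam) {b : H} (hb : z * b * z = b⁻¹) (i : ℕ) :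
    z * cj lam b i * z = (cj lam b i)⁻¹ := by
  have h1 : z * lam ^ i = lam ^ i * z := (hzl.pow_right i).eq
  have h2 : (lam ^ i)⁻¹ * z = z * (lam ^ i)⁻¹ := ((hzl.pow_right i).inv_right).eq.symm
  calc z * cj lam b i * z = (z * lam ^ i) * b * ((lam ^ i)⁻¹ * z) := by simp only [cj]; group
    _ = lam ^ i * (z * b * z) * (lam ^ i)⁻¹ := by rw [h1, h2]; group
    _ = (cj lam b i)⁻¹ := by rw [hb]; simp only [cj]; group

theorem odd_of_pow {x : H} {N : ℕ} (hN : Odd N) (h : x ^ N = 1) : Odd (orderOf x) :=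
  Odd.of_dvd_nat hN (orderOf_dvd_of_pow_eq_one h)

theorem cj_pow {b : H} {N : ℕ} (h : b ^ N = 1) (i : ℕ) : (cj lam b i) ^ N = 1 := by
  simp only [cj]
  rw [conj_pow, h]; group

theorem cj_comm0 (hrel : Rel z lam) (hzl : Commute z lam) (hz : z * z = 1) {b : H}
    (hb : z * b * z = b⁻¹) (hodd : Odd (orderOf b)) (n : ℕ) :
    ∀ i ≤ n, Commute b (cj lam b i) := by
  induction n with
  | zero =>
    intro i hi
    have : i = 0 := by omega
    subst this
    rw [cj_zero]
  | succ n ih =>
    intro i hi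
    rcases Nat.lt_or_ge i (n + 1) with h | h
    · exact ih i (by omega)
    have hin : i = n + 1 := by omega
    subst hin
    rcases Nat.eq_zero_or_pos n with h0 | hpos
    · subst h0
      have e : cj lam b (0 + 1) = lam * b * lam⁻¹ := by rw [cj_succ, cj_zero]
      rw [e]
      exact comm_lam hrel hb hz hodd
    have hbn : Commute b (cj lam b n) := ih n le_rfl
    have hb1 : Commute b (cj lam b 1) := ih 1 (by omega)
    have hn1 : Commute (cj lam b n) (cj lam b 1) := by
      have h1 : Commute b (cj lam b (n - 1)) := ih (n - 1) (by omega)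
      have h2 := comm_conj (lam ^ 1) h1
      rw [← cj_add, show 1 + (n - 1) = n by omega] at h2
      have e : lam ^ 1 * b * (lam ^ 1)⁻¹ = cj lam b 1 := rfl
      rw [e] at h2
      exact h2.symm
    have hnn : Commute (cj lam b n) (cj lam b (n + 1)) := by
      have h2 := comm_conj (lam ^ n) hb1
      rw [← cj_add] at h2
      exact h2
    have hx : z * (b * cj lam b n) * z = (b * cj lam b n)⁻¹ := by
      calc z * (b * cj lam b n) * z = z * b * (z * z) * cj lam b n * z := by rw [hz]; group
        _ = (z * b * z) * (z * cj lam b n * z) := by group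
        _ = b⁻¹ * (cj lam b n)⁻¹ := by rw [hb, cj_inv hzl hb]
        _ = (cj lam b n * b)⁻¹ := by group
        _ = (b * cj lam b n)⁻¹ := by rw [hbn.eq]
    have hxo : Odd (orderOf (b * cj lam b n)) := by
      refine odd_of_pow hodd ?_
      rw [hbn.mul_pow, pow_orderOf_eq_one, cj_pow (pow_orderOf_eq_one b), one_mul]
    have hk := comm_lam hrel hx hz hxo
    have e1 : lam * (b * cj lam b n) * lam⁻¹ = cj lam b 1 * cj lam b (n + 1) := by
      rw [cj_succ, show (1 : ℕ) = 0 + 1 from rfl, cj_succ, cj_zero]; group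
    rw [e1] at hk
    have hk1 : Commute (b * cj lam b n) (cj lam b 1) := hb1.mul_left hn1
    have hk2 : Commute (b * cj lam b n) (cj lam b (n + 1)) := by
      have := hk1.inv_right.mul_right hk
      rwa [← mul_assoc, inv_mul_cancel, one_mul] at this
    have hk3 := hk2.mul_left hnn.inv_left
    rwa [mul_assoc, mul_inv_cancel, mul_one] at hk3

theorem cj_comm (hrel : Rel z lam) (hzl : Commute z lam) (hz : z * z = 1) {b : H}
    (hb : z * b * z = b⁻¹) (hodd : Odd (orderOf b)) (i j : ℕ) :
    Commute (cj lam b i) (cj lam b j) := by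
  have key : ∀ i j : ℕ, i ≤ j → Commute (cj lam b i) (cj lam b j) := by
    intro i j hij
    have h1 := cj_comm0 hrel hzl hz hb hodd (j - i) (j - i) le_rfl
    have h2 := comm_conj (lam ^ i) h1
    rw [← cj_add, show i + (j - i) = j by omega] at h2
    exact h2
  rcases Nat.le_total i j with h | h
  · exact key i j h
  · exact (key j i h).symm

theorem exists_B {b : H} (hrel : Rel z lam) (hz : z * z = 1) (hzl : Commute z lam)
    (hb : z * b * z = b⁻¹) (hodd : Odd (orderOf b)) :
    ∃ B : Subgroup H, b ∈ B ∧ (∀ x ∈ B, ∀ y ∈ B, x * y = y * x) ∧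
      (∀ x ∈ B, z * x * z = x⁻¹) ∧ (∀ x ∈ B, lam * x * lam⁻¹ ∈ B) ∧
      (∀ x ∈ B, Odd (orderOf x)) := by
  set S : Set H := Set.range (cj lam b) with hS
  have hcomm : ∀ x ∈ Subgroup.closure S, ∀ y ∈ Subgroup.closure S, x * y = y * x := by
    have h1 : ∀ x ∈ S, ∀ y ∈ Subgroup.closure S, Commute x y := by
      rintro _ ⟨i, rfl⟩ y hy
      induction hy using Subgroup.closure_induction with
      | mem y hy => obtain ⟨j, rfl⟩ := hy; exact cj_comm hrel hzl hz hb hodd i j
      | one => exact Commute.one_right _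
      | mul u v _ _ hu hv => exact hu.mul_right hv
      | inv u _ hu => exact hu.inv_right
    intro x hx y hy
    change Commute x y
    induction hx using Subgroup.closure_induction with
    | mem x hx => exact h1 x hx y hy
    | one => exact Commute.one_left _
    | mul u v _ _ hu hv => exact hu.mul_left hv
    | inv u _ hu => exact hu.inv_left
  have hz' : z⁻¹ = z := by rw [inv_eq_iff_mul_eq_one, hz]
  refine ⟨Subgroup.closure S, Subgroup.subset_closure ⟨0, cj_zero lam b⟩, hcomm, ?_, ?_, ?_⟩
  · intro x hx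
    induction hx using Subgroup.closure_induction with
    | mem x hx => obtain ⟨i, rfl⟩ := hx; exact cj_inv hzl hb i
    | one => rw [mul_one, hz, inv_one]
    | mul u v hu hv hu' hv' =>
      calc z * (u * v) * z = z * u * (z * z) * v * z := by rw [hz]; group
        _ = (z * u * z) * (z * v * z) := by group
        _ = u⁻¹ * v⁻¹ := by rw [hu', hv']
        _ = (v * u)⁻¹ := by group
        _ = (u * v)⁻¹ := by rw [hcomm v hv u hu]
    | inv u _ hu =>
      have h3 := congrArg (·⁻¹) hu
      simp only [mul_inv_rev, hz', inv_inv] at h3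
      rw [inv_inv, mul_assoc]; exact h3
  · intro x hx
    induction hx using Subgroup.closure_induction with
    | mem x hx =>
      obtain ⟨i, rfl⟩ := hx
      exact Subgroup.subset_closure ⟨i + 1, cj_succ lam b i⟩
    | one => rw [mul_one, mul_inv_cancel]; exact one_mem _
    | mul u v _ _ hu hv =>
      have : lam * (u * v) * lam⁻¹ = (lam * u * lam⁻¹) * (lam * v * lam⁻¹) := by group
      rw [this]; exact mul_mem hu hv
    | inv u _ hu =>
      have : lam * u⁻¹ * lam⁻¹ = (lam * u * lam⁻¹)⁻¹ := by group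
      rw [this]; exact inv_mem hu
  · intro x hx
    refine odd_of_pow hodd ?_
    induction hx using Subgroup.closure_induction with
    | mem x hx => obtain ⟨i, rfl⟩ := hx; exact cj_pow (pow_orderOf_eq_one b) i
    | one => exact one_pow _
    | mul u v hu hv hu' hv' =>
      have hc : Commute u v := hcomm u hu v hv
      rw [hc.mul_pow, hu', hv', one_mul]
    | inv u _ hu => rw [inv_pow, hu, inv_one]

end Pool.Agent.H21.AL
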